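import Mathlib

/-!
# Sublinear functionals, averaging over commuting operators, invariant Hahn-Banach
-/

set_option autoImplicit false

open Finset

namespace Pool.Agent.W77.AK

section Sub

variable {E : Type*} [AddCommGroup E] [Module ℝ E]

/-- A sublinear functional. -/
structure Subl (N : E → ℝ) : Prop where
  hom : ∀ c : ℝ, 0 ≤ c → ∀ x, N (c • x) = c * N x
  add : ∀ x y, N (x + y) ≤ N x + N y

variable {N : E → ℝ}

lemma Subl.zero (h : Subl N) : N 0 = 0 := by
  have := h.hom 0 le_rfl 0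
  simpa using this

lemma Subl.neg (h : Subl N) (x : E) : 0 ≤ N x + N (-x) := by
  have h1 := h.add x (-x)
  rwa [add_neg_cancel, h.zero] at h1

lemma Subl.sum (h : Subl N) {ι : Type*} (s : Finset ι) (f : ι → E) :
    N (∑ i ∈ s, f i) ≤ ∑ i ∈ s, N (f i) := by
  classical
  induction s using Finset.induction_on with
  | empty => simp [h.zero]
  | insert a s ha ih =>
    rw [Finset.sum_insert ha, Finset.sum_insert ha]
    exact (h.add _ _).trans (add_le_add le_rfl ih)

/-- `N` does not increase under `A`. -/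
def Inv (N : E → ℝ) (A : Module.End ℝ E) : Prop := ∀ x, N (A x) ≤ N x

lemma Inv.one : Inv N 1 := fun _ => le_rfl

lemma Inv.mul {A B : Module.End ℝ E} (hA : Inv N A) (hB : Inv N B) : Inv N (A * B) :=
  fun x => (hA (B x)).trans (hB x)

lemma Inv.pow {A : Module.End ℝ E} (hA : Inv N A) (n : ℕ) : Inv N (A ^ n) := by
  induction n with
  | zero => rw [pow_zero]; exact Inv.one
  | succ n ih => rw [pow_succ]; exact ih.mul hA

/-- The average of the first `n + 1` powers. -/
noncomputable def Av (g : Module.End ℝ E) (n : ℕ) : Module.End ℝ E :=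
  ((n : ℝ) + 1)⁻¹ • ∑ i ∈ range (n + 1), g ^ i

lemma Av_apply (g : Module.End ℝ E) (n : ℕ) (x : E) :
    Av g n x = ((n : ℝ) + 1)⁻¹ • ∑ i ∈ range (n + 1), (g ^ i) x := by
  simp [Av, LinearMap.sum_apply]

lemma Inv.av (h : Subl N) {g : Module.End ℝ E} (hg : Inv N g) (n : ℕ) : Inv N (Av g n) := by
  intro x
  rw [Av_apply, h.hom _ (by positivity)]
  have h1 : N (∑ i ∈ range (n + 1), (g ^ i) x) ≤ ((n : ℝ) + 1) * N x := by
    refine (h.sum _ _).trans ?_
    refine (Finset.sum_le_sum fun i _ => (hg.pow i) x).trans ?_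
    simp
  have h2 : (0 : ℝ) < (n : ℝ) + 1 := by positivity
  calc ((n : ℝ) + 1)⁻¹ * N (∑ i ∈ range (n + 1), (g ^ i) x)
      ≤ ((n : ℝ) + 1)⁻¹ * (((n : ℝ) + 1) * N x) :=
        mul_le_mul_of_nonneg_left h1 (by positivity)
    _ = N x := by rw [inv_mul_cancel_left₀ h2.ne']

/-- The monoid of averaging operators generated by a set. -/
noncomputable def AvM (G : Set (Module.End ℝ E)) : Submonoid (Module.End ℝ E) :=
  Submonoid.closure {A | ∃ g ∈ G, ∃ n : ℕ, A = Av g n}

lemma AvM_inv (h : Subl N) {G : Set (Module.End ℝ E)} (hG : ∀ g ∈ G, Inv N g)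
    {A : Module.End ℝ E} (hA : A ∈ AvM G) : Inv N A := by
  unfold AvM at hA
  induction hA using Submonoid.closure_induction with
  | mem A hA =>
    obtain ⟨g, hg, n, rfl⟩ := hA
    exact (hG g hg).av h n
  | one => exact Inv.one
  | mul A B _ _ ha hb => exact ha.mul hb

lemma Av_comm {g g' : Module.End ℝ E} (h : g * g' = g' * g) (n m : ℕ) :
    Av g n * Av g' m = Av g' m * Av g n := by
  have h1 : Commute g g' := h
  have h2 : Commute (∑ i ∈ range (n + 1), g ^ i) (∑ i ∈ range (m + 1), g' ^ i) :=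
    Commute.sum_left _ _ _ fun i _ => Commute.sum_right _ _ _ fun j _ => h1.pow_pow i j
  unfold Av
  rw [smul_mul_smul_comm, smul_mul_smul_comm, h2.eq, mul_comm]

lemma AvM_comm {G : Set (Module.End ℝ E)} (hG : ∀ g ∈ G, ∀ g' ∈ G, g * g' = g' * g)
    {A B : Module.End ℝ E} (hA : A ∈ AvM G) (hB : B ∈ AvM G) : A * B = B * A := by
  unfold AvM at hA hB
  induction hA using Submonoid.closure_induction with
  | mem A hA =>
    obtain ⟨g, hg, n, rfl⟩ := hA
    induction hB using Submonoid.closure_induction with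
    | mem B hB =>
      obtain ⟨g', hg', m, rfl⟩ := hB
      exact Av_comm (hG g hg g' hg') n m
    | one => simp
    | mul B C _ _ hb hc => rw [← mul_assoc, hb, mul_assoc, hc, mul_assoc]
  | one => simp
  | mul A C _ _ ha hc => rw [mul_assoc, hc, ← mul_assoc, ha, mul_assoc]

/-- The averaged functional. -/
noncomputable def avN (G : Set (Module.End ℝ E)) (N : E → ℝ) (x : E) : ℝ :=
  ⨅ A : AvM G, N ((A : Module.End ℝ E) x)

lemma avN_bdd (h : Subl N) {G : Set (Module.End ℝ E)} (hG : ∀ g ∈ G, Inv N g) (x : E) :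
    BddBelow (Set.range fun A : AvM G => N ((A : Module.End ℝ E) x)) := by
  refine ⟨-N (-x), ?_⟩
  rintro _ ⟨A, rfl⟩
  have h1 := AvM_inv h hG A.2 (-x)
  have h2 := h.neg ((A : Module.End ℝ E) x)
  rw [← map_neg] at h2
  dsimp only
  linarith

lemma avN_le (h : Subl N) {G : Set (Module.End ℝ E)} (hG : ∀ g ∈ G, Inv N g)
    {A : Module.End ℝ E} (hA : A ∈ AvM G) (x : E) : avN G N x ≤ N (A x) :=
  ciInf_le (avN_bdd h hG x) (⟨A, hA⟩ : AvM G)

lemma avN_le_self (h : Subl N) {G : Set (Module.End ℝ E)} (hG : ∀ g ∈ G, Inv N g) (x : E) :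
    avN G N x ≤ N x := avN_le h hG (one_mem _) x

lemma avN_subl (h : Subl N) {G : Set (Module.End ℝ E)} (hG : ∀ g ∈ G, Inv N g)
    (hc : ∀ g ∈ G, ∀ g' ∈ G, g * g' = g' * g) : Subl (avN G N) := by
  constructor
  · intro c hc0 x
    unfold avN
    rw [Real.mul_iInf_of_nonneg hc0]
    refine iInf_congr fun A => ?_
    rw [map_smul, h.hom c hc0]
  · intro x y
    have key : ∀ A B : AvM G, avN G N (x + y) ≤
        N ((A : Module.End ℝ E) x) + N ((B : Module.End ℝ E) y) := by
      intro A B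
      refine (avN_le h hG (A * B).2 (x + y)).trans ?_
      rw [map_add]
      refine (h.add _ _).trans (add_le_add ?_ ?_)
      · have e : ((A * B : AvM G) : Module.End ℝ E) x =
            (B : Module.End ℝ E) ((A : Module.End ℝ E) x) := by
          rw [Submonoid.coe_mul, AvM_comm hc A.2 B.2]
          rfl
        rw [e]
        exact AvM_inv h hG B.2 _
      · have e : ((A * B : AvM G) : Module.End ℝ E) y =
            (A : Module.End ℝ E) ((B : Module.End ℝ E) y) := rfl
        rw [e]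
        exact AvM_inv h hG A.2 _
    have k1 : ∀ A : AvM G, avN G N (x + y) - N ((A : Module.End ℝ E) x) ≤ avN G N y := by
      intro A
      refine le_ciInf fun B => ?_
      have := key A B
      linarith
    have k2 : avN G N (x + y) - avN G N y ≤ avN G N x := by
      refine le_ciInf fun A => ?_
      have := k1 A
      linarith
    linarith

lemma Av_sub (g : Module.End ℝ E) (n : ℕ) (x : E) :
    Av g n (x - g x) = ((n : ℝ) + 1)⁻¹ • (x - (g ^ (n + 1)) x) := by
  rw [Av_apply]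
  congr 1
  have : ∀ i, (g ^ i) (x - g x) = (g ^ i) x - (g ^ (i + 1)) x := by
    intro i
    rw [map_sub, pow_succ]
    rfl
  rw [Finset.sum_congr rfl fun i _ => this i, Finset.sum_range_sub']
  simp

lemma avN_sub (h : Subl N) {G : Set (Module.End ℝ E)} (hG : ∀ g ∈ G, Inv N g)
    {g : Module.End ℝ E} (hg : g ∈ G) (x : E) : avN G N (x - g x) ≤ 0 := by
  have key : ∀ n : ℕ, avN G N (x - g x) ≤ ((n : ℝ) + 1)⁻¹ * (N x + N (-x)) := by
    intro n
    refine (avN_le h hG (Submonoid.subset_closure ⟨g, hg, n, rfl⟩) _).trans ?_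
    rw [Av_sub, h.hom _ (by positivity)]
    refine mul_le_mul_of_nonneg_left ?_ (by positivity)
    rw [sub_eq_add_neg]
    refine (h.add _ _).trans (add_le_add le_rfl ?_)
    rw [← map_neg]
    exact (hG g hg).pow (n + 1) (-x)
  have h1 : Filter.Tendsto (fun n : ℕ => ((n : ℝ) + 1)⁻¹ * (N x + N (-x))) Filter.atTop
      (nhds (0 * (N x + N (-x)))) := by
    refine Filter.Tendsto.mul_const _ ?_
    have := tendsto_one_div_add_atTop_nhds_zero_nat (𝕜 := ℝ)
    simpa using this
  rw [zero_mul] at h1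
  exact ge_of_tendsto' h1 key

lemma AvM_fix {G : Set (Module.End ℝ E)} {x : E} (hx : ∀ g ∈ G, g x = x)
    {A : Module.End ℝ E} (hA : A ∈ AvM G) : A x = x := by
  unfold AvM at hA
  induction hA using Submonoid.closure_induction with
  | mem A hA =>
    obtain ⟨g, hg, n, rfl⟩ := hA
    have h1 : ∀ i, (g ^ i) x = x := by
      intro i
      induction i with
      | zero => simp
      | succ i ih => rw [pow_succ]; show (g ^ i) (g x) = x; rw [hx g hg, ih]
    rw [Av_apply, Finset.sum_congr rfl fun i _ => h1 i]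
    have h2 : (0 : ℝ) < (n : ℝ) + 1 := by positivity
    rw [Finset.sum_const, Finset.card_range, ← Nat.cast_smul_eq_nsmul ℝ, smul_smul]
    push_cast
    rw [inv_mul_cancel₀ h2.ne', one_smul]
  | one => rfl
  | mul A B _ _ ha hb => show A (B x) = x; rw [hb, ha]

lemma avN_fix {G : Set (Module.End ℝ E)} {x : E} (hx : ∀ g ∈ G, g x = x) :
    avN G N x = N x := by
  unfold avN
  have : ∀ A : AvM G, N ((A : Module.End ℝ E) x) = N x := fun A => by rw [AvM_fix hx A.2]
  rw [iInf_congr this, ciInf_const]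

/-- `δ` normalises `G`. -/
def Norms (G : Set (Module.End ℝ E)) (d : Module.End ℝ E) : Prop :=
  ∀ g ∈ G, ∃ g' ∈ G, g' * d = d * g

lemma Av_conj {g g' d : Module.End ℝ E} (h : g' * d = d * g) (n : ℕ) :
    Av g' n * d = d * Av g n := by
  have h1 : ∀ i : ℕ, g' ^ i * d = d * g ^ i := by
    intro i
    induction i with
    | zero => simp
    | succ i ih => rw [pow_succ', mul_assoc, ih, ← mul_assoc, h, mul_assoc, ← pow_succ']
  unfold Av
  rw [smul_mul_assoc, mul_smul_comm, Finset.sum_mul, Finset.mul_sum]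
  congr 1
  exact Finset.sum_congr rfl fun i _ => h1 i

lemma AvM_conj {G : Set (Module.End ℝ E)} {d : Module.End ℝ E} (hd : Norms G d)
    {A : Module.End ℝ E} (hA : A ∈ AvM G) : ∃ A' ∈ AvM G, A' * d = d * A := by
  unfold AvM at hA
  induction hA using Submonoid.closure_induction with
  | mem A hA =>
    obtain ⟨g, hg, n, rfl⟩ := hA
    obtain ⟨g', hg', e⟩ := hd g hg
    exact ⟨Av g' n, Submonoid.subset_closure ⟨g', hg', n, rfl⟩, Av_conj e n⟩
  | one => exact ⟨1, one_mem _, by simp⟩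
  | mul A B _ _ ha hb =>
    obtain ⟨A', hA', e1⟩ := ha
    obtain ⟨B', hB', e2⟩ := hb
    refine ⟨A' * B', mul_mem hA' hB', ?_⟩
    rw [mul_assoc, e2, ← mul_assoc, e1, mul_assoc]

lemma avN_inv (h : Subl N) {G : Set (Module.End ℝ E)} (hG : ∀ g ∈ G, Inv N g)
    {d : Module.End ℝ E} (hd : Norms G d) (hdi : Inv N d) : Inv (avN G N) d := by
  intro x
  refine le_ciInf fun A => ?_
  obtain ⟨A', hA', e⟩ := AvM_conj hd A.2
  refine (avN_le h hG hA' (d x)).trans ?_
  have e2 : A' (d x) = d ((A : Module.End ℝ E) x) := congrArg (fun B : Module.End ℝ E => B x) e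
  rw [e2]
  exact hdi _

/-- Hahn-Banach at a point. -/
theorem exists_le_of_subl (h : Subl N) (x : E) : ∃ L : E →ₗ[ℝ] ℝ, (∀ y, L y ≤ N y) ∧ L x = N x := by
  by_cases hx : x = 0
  · subst hx
    obtain ⟨g, _, hg⟩ := exists_extension_of_le_sublinear (⟨⊥, 0⟩ : E →ₗ.[ℝ] ℝ) N
      (fun c hc y => h.hom c hc.le y) h.add (by
        rintro ⟨y, hy⟩
        rw [Submodule.mem_bot] at hy
        subst hy
        show (0 : ℝ) ≤ N 0
        rw [h.zero])
    exact ⟨g, hg, by rw [map_zero, h.zero]⟩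
  · obtain ⟨g, hg1, hg2⟩ := exists_extension_of_le_sublinear
      (LinearPMap.mkSpanSingleton x (N x) hx : E →ₗ.[ℝ] ℝ) N
      (fun c hc y => h.hom c hc.le y) h.add (by
        rintro ⟨y, hy⟩
        rcases Submodule.mem_span_singleton.1 hy with ⟨c, rfl⟩
        have e : (LinearPMap.mkSpanSingleton x (N x) hx : E →ₗ.[ℝ] ℝ) ⟨c • x, hy⟩ = c • N x :=
          LinearPMap.mkSpanSingleton'_apply _ _ _ _ _
        rw [e, smul_eq_mul]
        show c * N x ≤ N (c • x)
        rcases le_total 0 c with h0 | h0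
        · rw [h.hom c h0]
        · have h1 := h.hom (-c) (by linarith) x
          have h2 := h.neg (c • x)
          rw [← neg_smul, h1] at h2
          linarith)
    refine ⟨g, hg2, ?_⟩
    have h1 := hg1 ⟨x, Submodule.mem_span_singleton_self x⟩
    rw [LinearPMap.mkSpanSingleton_apply ℝ ℝ hx (N x)] at h1
    exact h1

/-- Invariant Hahn-Banach for an action of an abelian group extended by an abelian group. -/
theorem exists_invariant (h : Subl N) {G D : Set (Module.End ℝ E)} (hG : ∀ g ∈ G, Inv N g)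
    (hD : ∀ g ∈ D, Inv N g) (hcG : ∀ g ∈ G, ∀ g' ∈ G, g * g' = g' * g)
    (hcD : ∀ g ∈ D, ∀ g' ∈ D, g * g' = g' * g) (hn : ∀ d ∈ D, Norms G d) {x : E}
    (hxG : ∀ g ∈ G, g x = x) (hxD : ∀ g ∈ D, g x = x) :
    ∃ L : E →ₗ[ℝ] ℝ, (∀ y, L y ≤ N y) ∧ L x = N x ∧ (∀ g ∈ G, ∀ y, L (g y) = L y) ∧
      (∀ g ∈ D, ∀ y, L (g y) = L y) := by
  have s1 : Subl (avN G N) := avN_subl h hG hcG
  have i1 : ∀ d ∈ D, Inv (avN G N) d := fun d hd => avN_inv h hG (hn d hd) (hD d hd)
  have s2 : Subl (avN D (avN G N)) := avN_subl s1 i1 hcD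
  obtain ⟨L, hL, hLx⟩ := exists_le_of_subl s2 x
  have le1 : ∀ y, L y ≤ avN G N y := fun y => (hL y).trans (avN_le_self s1 i1 y)
  have conc : ∀ g : Module.End ℝ E, (∀ y, L (y - g y) ≤ 0) → ∀ y, L (g y) = L y := by
    intro g hg y
    have h1 := hg y
    have h2 := hg (-y)
    have e : -y - g (-y) = -(y - g y) := by rw [map_neg]; abel
    rw [e, map_neg] at h2
    rw [map_sub] at h1 h2
    linarith
  refine ⟨L, fun y => (le1 y).trans (avN_le_self h hG y), ?_, ?_, ?_⟩
  · rw [hLx, avN_fix hxD, avN_fix hxG]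
  · exact fun g hg => conc g fun y => (le1 _).trans (avN_sub h hG hg y)
  · exact fun g hg => conc g fun y => (hL _).trans (avN_sub s1 i1 hg y)

end Sub

end Pool.Agent.W77.AK
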