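import Pool.Agent.W77.AK.WorldDef
import Pool.Agent.W77.AK.Sub

/-!
# Existence of the world functional
-/

set_option autoImplicit false

open Finset

namespace Pool.Agent.W77.AK

open Pool.Agent.W904.AK

/-! ### Families -/

lemma Fam.H_nonneg (F : Fam) {α : Type*} (f : F.Ω → α) : 0 ≤ H F.p f :=
  Pool.Agent.W904.AK.H_nonneg F.law f

lemma Fam.dir_aff (F : Fam) (lam : ℚˣ) (nu : ℚ) :
    H (F.aff lam nu).p (F.aff lam nu).D = H F.p F.D := by
  show H F.p (fun x => (lam : ℚ) • F.D x) = H F.p F.D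
  refine H_congr F.law ?_ ?_
  · intro x y hx hy h
    have h2 := congrArg (fun v => ((lam⁻¹ : ℚˣ) : ℚ) • v) h
    simpa [smul_smul] using h2
  · intro x y hx hy h
    show (lam : ℚ) • F.D x = (lam : ℚ) • F.D y
    rw [h]

lemma Fam.pt_aff (F : Fam) (lam : ℚˣ) (nu t : ℚ) :
    (F.aff lam nu).pt t = F.pt (nu + lam * t) := by
  funext x
  show (F.X x + nu • F.D x) + t • ((lam : ℚ) • F.D x) = F.X x + (nu + lam * t) • F.D x
  module

lemma Fam.aff_aff (F : Fam) (l1 l2 : ℚˣ) (n1 n2 : ℚ) :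
    (F.aff l1 n1).aff l2 n2 = F.aff (l1 * l2) (n1 + l1 * n2) := by
  unfold Fam.aff
  congr 1
  · funext x
    show (F.X x + n1 • F.D x) + n2 • ((l1 : ℚ) • F.D x) = F.X x + (n1 + l1 * n2) • F.D x
    module
  · funext x
    show (l2 : ℚ) • ((l1 : ℚ) • F.D x) = ((l1 * l2 : ℚˣ) : ℚ) • F.D x
    push_cast
    module

lemma Fam.dir_le (F : Fam) : H F.p F.D ≤ H F.p (F.pt 0) + H F.p (F.pt 1) := by
  refine subadd F.law ?_
  intro x y hx hy h
  have h0 : F.X x + (0 : ℚ) • F.D x = F.X y + (0 : ℚ) • F.D y := congrArg Prod.fst h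
  have h1 : F.X x + (1 : ℚ) • F.D x = F.X y + (1 : ℚ) • F.D y := congrArg Prod.snd h
  rw [zero_smul, zero_smul, add_zero, add_zero] at h0
  rw [one_smul, one_smul, h0] at h1
  exact add_left_cancel h1

lemma Fam.pt_le (F : Fam) (t : ℚ) : H F.p (F.pt t) ≤ H F.p F.D := by
  refine H_mono F.law ?_
  intro x y hx hy h
  show F.X x + t • F.D x = F.X y + t • F.D y
  rw [F.det x y hx hy h, h]

/-! ### The space of dominated functions -/

/-- Dominated functions. -/
def DomS : Submodule ℝ (Fam → ℝ) where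
  carrier := {f | Dom f}
  add_mem' := by
    rintro f g ⟨C, hC⟩ ⟨C', hC'⟩
    refine ⟨C + C', fun F => ?_⟩
    have h1 := hC F
    have h2 := hC' F
    have h3 := abs_add_le (f F) (g F)
    show |f F + g F| ≤ _
    nlinarith
  zero_mem' := ⟨0, fun F => by simp⟩
  smul_mem' := by
    rintro c f ⟨C, hC⟩
    refine ⟨|c| * C, fun F => ?_⟩
    show |c * f F| ≤ _
    rw [abs_mul, mul_assoc]
    exact mul_le_mul_of_nonneg_left (hC F) (abs_nonneg c)

lemma Dom.aff {f : Fam → ℝ} (hf : Dom f) (lam : ℚˣ) (nu : ℚ) : Dom fun F => f (F.aff lam nu) := by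
  obtain ⟨C, hC⟩ := hf
  refine ⟨C, fun F => ?_⟩
  have := hC (F.aff lam nu)
  rwa [F.dir_aff] at this

/-- The action of the affine group on dominated functions. -/
def pull (lam : ℚˣ) (nu : ℚ) : Module.End ℝ DomS where
  toFun f := ⟨fun F => f.1 (F.aff lam nu), Dom.aff f.2 lam nu⟩
  map_add' _ _ := rfl
  map_smul' _ _ := rfl

lemma pull_mul (l1 l2 : ℚˣ) (n1 n2 : ℚ) :
    pull l1 n1 * pull l2 n2 = pull (l1 * l2) (n1 + l1 * n2) := by
  refine LinearMap.ext fun f => Subtype.ext (funext fun F => ?_)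
  show f.1 ((F.aff l1 n1).aff l2 n2) = f.1 (F.aff (l1 * l2) (n1 + l1 * n2))
  rw [F.aff_aff]

/-! ### The sublinear functional -/

/-- `f` is majorised by a combination of total weight `s` of the entropies of points. -/
def Maj (f : Fam → ℝ) (s : ℝ) : Prop :=
  ∃ c : ℚ →₀ ℝ, (∀ t, 0 ≤ c t) ∧ (c.sum fun _ x => x) = s ∧
    ∀ F : Fam, f F ≤ c.sum fun t x => x * H F.p (F.pt t)

lemma Maj.nonneg {f : Fam → ℝ} {s : ℝ} (h : Maj f s) : 0 ≤ s := by
  obtain ⟨c, hc, rfl, _⟩ := h
  exact Finset.sum_nonneg fun t _ => hc t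

lemma Maj.zero : Maj 0 0 := ⟨0, fun t => by simp, by simp, fun F => by simp⟩

lemma Maj.add {f g : Fam → ℝ} {s s' : ℝ} (h : Maj f s) (h' : Maj g s') : Maj (f + g) (s + s') := by
  obtain ⟨c, hc, rfl, h1⟩ := h
  obtain ⟨c', hc', rfl, h2⟩ := h'
  refine ⟨c + c', fun t => add_nonneg (hc t) (hc' t), ?_, fun F => ?_⟩
  · rw [Finsupp.sum_add_index' (fun _ => rfl) (fun _ _ _ => rfl)]
  · rw [Finsupp.sum_add_index' (fun _ => by simp) (fun _ _ _ => by ring)]
    exact add_le_add (h1 F) (h2 F)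

lemma Maj.smul {f : Fam → ℝ} {s c : ℝ} (h : Maj f s) (hc : 0 ≤ c) : Maj (c • f) (c * s) := by
  obtain ⟨e, he, rfl, h1⟩ := h
  refine ⟨c • e, fun t => mul_nonneg hc (he t), ?_, fun F => ?_⟩
  · rw [Finsupp.sum_smul_index' (fun _ => rfl), Finsupp.mul_sum]
    rfl
  · rw [Finsupp.sum_smul_index' (fun _ => by simp)]
    have h2 := mul_le_mul_of_nonneg_left (h1 F) hc
    rw [Finsupp.mul_sum] at h2
    simpa [mul_assoc] using h2

lemma Maj.aff {f : Fam → ℝ} {s : ℝ} (h : Maj f s) (lam : ℚˣ) (nu : ℚ) :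
    Maj (fun F => f (F.aff lam nu)) s := by
  obtain ⟨c, hc, rfl, h1⟩ := h
  have hinj : Function.Injective fun t : ℚ => nu + lam * t := by
    intro x y hxy
    have h2 : (lam : ℚ) * x = lam * y := add_left_cancel hxy
    exact mul_left_cancel₀ lam.ne_zero h2
  refine ⟨c.mapDomain fun t => nu + lam * t, fun t => ?_, ?_, fun F => ?_⟩
  · by_cases ht : t ∈ Set.range fun t : ℚ => nu + lam * t
    · obtain ⟨u, rfl⟩ := ht
      rw [Finsupp.mapDomain_apply hinj]
      exact hc u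
    · rw [Finsupp.mapDomain_of_notMem_range _ _ ht]
  · rw [Finsupp.sum_mapDomain_index (fun _ => rfl) (fun _ _ _ => rfl)]
  · rw [Finsupp.sum_mapDomain_index (fun _ => by simp) (fun _ _ _ => by ring)]
    have h2 := h1 (F.aff lam nu)
    simp only [F.pt_aff] at h2
    exact h2

lemma Maj.of_dom {f : Fam → ℝ} (hf : Dom f) : ∃ s, Maj f s := by
  obtain ⟨C, hC⟩ := hf
  refine ⟨_, Finsupp.single 0 (max C 0) + Finsupp.single 1 (max C 0), fun t => ?_, rfl, fun F => ?_⟩
  · have h0 : ∀ u : ℚ, (0 : ℝ) ≤ Finsupp.single u (max C 0) t := by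
      intro u
      rw [Finsupp.single_apply]
      split_ifs
      exacts [le_max_right _ _, le_rfl]
    exact add_nonneg (h0 0) (h0 1)
  · rw [Finsupp.sum_add_index' (fun _ => by simp) (fun _ _ _ => by ring),
      Finsupp.sum_single_index (by simp), Finsupp.sum_single_index (by simp), ← mul_add]
    have h1 := hC F
    have h2 := le_abs_self (f F)
    have h3 : C * H F.p F.D ≤ max C 0 * H F.p F.D :=
      mul_le_mul_of_nonneg_right (le_max_left _ _) (F.H_nonneg _)
    have h4 : max C 0 * H F.p F.D ≤ max C 0 * (H F.p (F.pt 0) + H F.p (F.pt 1)) :=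
      mul_le_mul_of_nonneg_left F.dir_le (le_max_right _ _)
    linarith

/-- The sublinear functional. -/
noncomputable def NN (f : DomS) : ℝ := sInf {s | Maj f.1 s}

lemma NN_bdd (f : DomS) : BddBelow {s | Maj f.1 s} := ⟨0, fun _ h => Maj.nonneg h⟩

lemma NN_le {f : DomS} {s : ℝ} (h : Maj f.1 s) : NN f ≤ s := csInf_le (NN_bdd f) h

lemma NN_nonneg (f : DomS) : 0 ≤ NN f :=
  le_csInf (Maj.of_dom f.2) fun _ h => Maj.nonneg h

lemma exists_maj {f : DomS} {s : ℝ} (h : NN f < s) : ∃ s' < s, Maj f.1 s' := by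
  obtain ⟨s', h1, h2⟩ := exists_lt_of_csInf_lt (Maj.of_dom f.2) h
  exact ⟨s', h2, h1⟩

lemma NN_add (f g : DomS) : NN (f + g) ≤ NN f + NN g := by
  refine le_of_forall_pos_lt_add fun e he => ?_
  obtain ⟨s, h1, h2⟩ := exists_maj (show NN f < NN f + e / 2 by linarith)
  obtain ⟨s', h1', h2'⟩ := exists_maj (show NN g < NN g + e / 2 by linarith)
  have := NN_le (f := f + g) (h2.add h2')
  linarith

lemma NN_smul_le {c : ℝ} (hc : 0 < c) (f : DomS) : NN (c • f) ≤ c * NN f := by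
  refine le_of_forall_pos_lt_add fun e he => ?_
  obtain ⟨s, h1, h2⟩ := exists_maj (show NN f < NN f + e / c by have := div_pos he hc; linarith)
  have h3 := NN_le (f := c • f) (h2.smul hc.le)
  have h4 : c * s < c * (NN f + e / c) := mul_lt_mul_of_pos_left h1 hc
  rw [mul_add, mul_div_cancel₀ e hc.ne'] at h4
  linarith

lemma NN_subl : Subl NN := by
  constructor
  · intro c hc f
    rcases hc.eq_or_lt with rfl | hc
    · rw [zero_smul, zero_mul]
      exact le_antisymm (NN_le Maj.zero) (NN_nonneg _)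
    · refine le_antisymm (NN_smul_le hc f) ?_
      have h1 := NN_smul_le (inv_pos.2 hc) (c • f)
      rw [smul_smul, inv_mul_cancel₀ hc.ne', one_smul] at h1
      have h2 := mul_le_mul_of_nonneg_left h1 hc.le
      rwa [mul_inv_cancel_left₀ hc.ne'] at h2
  · exact NN_add

lemma NN_inv (lam : ℚˣ) (nu : ℚ) : Inv NN (pull lam nu) := by
  intro f
  refine le_csInf (Maj.of_dom f.2) fun s hs => ?_
  exact NN_le (f := pull lam nu f) (Maj.aff hs lam nu)

lemma dom_dir : Dom fun F => H F.p F.D :=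
  ⟨1, fun F => by rw [abs_of_nonneg (F.H_nonneg _), one_mul]⟩

lemma dom_pt (t : ℚ) : Dom fun F => H F.p (F.pt t) :=
  ⟨1, fun F => by rw [abs_of_nonneg (F.H_nonneg _), one_mul]; exact F.pt_le t⟩

/-- The entropy of the direction as a dominated function. -/
noncomputable def dirS : DomS := ⟨fun F => H F.p F.D, dom_dir⟩

lemma pull_dirS (lam : ℚˣ) (nu : ℚ) : pull lam nu dirS = dirS :=
  Subtype.ext (funext fun F => F.dir_aff lam nu)

/-- From a majorisation of the entropy of the direction to an oracle. -/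
lemma oracle_of_maj {s b : ℝ} (h : Maj (fun F => H F.p F.D) s) (hsb : s ≤ b) (hb : 0 < b) :
    ∃ (T : Finset ℚ) (w : ℚ → ℝ), Oracle b T w := by
  obtain ⟨c, hc, rfl, h1⟩ := h
  have key : ∀ (Ω : Type) [Fintype Ω] (W : Type) [AddCommGroup W] [Module ℚ W] (p : Ω → ℝ)
      (X D : Ω → W), IsLaw p → Det p D X →
      H p D ≤ c.sum fun t x => x * H p (fun z => X z + t • D z) := by
    intro Ω _ W _ _ p X D hp hdet
    exact h1 { Ω := Ω, W := W, p := p, X := X, D := D, law := hp, det := hdet }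
  set S : ℝ := c.sum fun _ x => x with hS
  have hS0 : 0 ≤ S := Finset.sum_nonneg fun t _ => hc t
  rcases hS0.eq_or_lt with h0 | h0
  · refine ⟨{0}, fun _ => 1, fun _ _ => zero_le_one, by simp, ?_⟩
    intro Ω _ W _ _ p X D hp hdet
    have hc0 : ∀ t ∈ c.support, c t = 0 := by
      rw [hS] at h0
      exact (Finset.sum_eq_zero_iff_of_nonneg fun t _ => hc t).1 h0.symm
    have h2 := key Ω W p X D hp hdet
    have h3 : (c.sum fun t x => x * H p (fun z => X z + t • D z)) = 0 :=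
      Finset.sum_eq_zero fun t ht => by simp [hc0 t ht]
    rw [h3] at h2
    refine h2.trans (mul_nonneg hb.le ?_)
    simp only [Finset.sum_singleton, one_mul]
    exact Pool.Agent.W904.AK.H_nonneg hp _
  · refine ⟨c.support, fun t => c t / S, fun t _ => div_nonneg (hc t) hS0, ?_, ?_⟩
    · rw [← Finset.sum_div]
      exact div_self h0.ne'
    · intro Ω _ W _ _ p X D hp hdet
      have h2 := key Ω W p X D hp hdet
      have h3 : (c.sum fun t x => x * H p (fun z => X z + t • D z)) =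
          S * ∑ t ∈ c.support, c t / S * H p (fun z => X z + t • D z) := by
        rw [Finsupp.sum, Finset.mul_sum]
        refine Finset.sum_congr rfl fun t _ => ?_
        field_simp
      rw [h3] at h2
      refine h2.trans (mul_le_mul_of_nonneg_right hsb ?_)
      exact Finset.sum_nonneg fun t _ => mul_nonneg (div_nonneg (hc t) hS0)
        (Pool.Agent.W904.AK.H_nonneg hp _)

open Classical in
/-- The world functional exists. -/
theorem exists_world : S_WORLD := by
  obtain ⟨L, hL, hLx, hG, hD⟩ := exists_invariant (N := NN) NN_subl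
    (G := Set.range fun nu : ℚ => pull 1 nu) (D := Set.range fun lam : ℚˣ => pull lam 0)
    (by rintro _ ⟨nu, rfl⟩; exact NN_inv 1 nu)
    (by rintro _ ⟨lam, rfl⟩; exact NN_inv lam 0)
    (by
      rintro _ ⟨n1, rfl⟩ _ ⟨n2, rfl⟩
      dsimp only
      rw [pull_mul, pull_mul]
      congr 1
      push_cast
      ring)
    (by
      rintro _ ⟨l1, rfl⟩ _ ⟨l2, rfl⟩
      dsimp only
      rw [pull_mul, pull_mul, mul_comm l1 l2]
      congr 1
      ring)
    (by
      rintro _ ⟨lam, rfl⟩ _ ⟨nu, rfl⟩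
      refine ⟨_, ⟨(lam : ℚ) * nu, rfl⟩, ?_⟩
      dsimp only
      rw [pull_mul, pull_mul, one_mul, mul_one]
      congr 1
      push_cast
      ring)
    (x := dirS)
    (by rintro _ ⟨nu, rfl⟩; exact pull_dirS 1 nu)
    (by rintro _ ⟨lam, rfl⟩; exact pull_dirS lam 0)
  let Lam : (Fam → ℝ) → ℝ := fun f => if h : Dom f then L ⟨f, h⟩ else 0
  have hLam : ∀ (f : Fam → ℝ) (h : Dom f), Lam f = L ⟨f, h⟩ := fun f h => dif_pos h
  have hneg : ∀ f : DomS, (∀ F, f.1 F ≤ 0) → L f ≤ 0 := by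
    intro f hf
    refine (hL f).trans (NN_le ?_)
    refine ⟨0, fun t => by simp, by simp, fun F => ?_⟩
    simpa using hf F
  refine ⟨NN dirS, Lam, ?_, ?_, ?_, ?_, ?_, ?_, ?_⟩
  · intro f g hf hg
    have h : Dom fun F => f F + g F := DomS.add_mem hf hg
    rw [hLam _ h, hLam f hf, hLam g hg, ← map_add]
    rfl
  · intro c f hf
    have h : Dom fun F => c * f F := DomS.smul_mem c hf
    rw [hLam _ h, hLam f hf]
    have : L (c • (⟨f, hf⟩ : DomS)) = c * L ⟨f, hf⟩ := by rw [map_smul, smul_eq_mul]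
    rw [← this]
    rfl
  · intro f g hf hg hfg
    rw [hLam f hf, hLam g hg]
    have h1 := hneg (⟨f, hf⟩ - ⟨g, hg⟩) (fun F => by
      show f F - g F ≤ 0
      linarith [hfg F])
    rw [map_sub] at h1
    linarith
  · rw [hLam _ dom_dir]
    exact hLx
  · intro t
    rw [hLam _ (dom_pt t)]
    refine (hL _).trans (NN_le ?_)
    refine ⟨Finsupp.single t 1, fun u => ?_, by simp, fun F => by simp⟩
    rw [Finsupp.single_apply]
    split_ifs
    exacts [zero_le_one, le_rfl]
  · intro f lam nu hf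
    rw [hLam _ (hf.aff lam nu), hLam f hf]
    have h1 := hG _ ⟨nu, rfl⟩ (pull lam 0 ⟨f, hf⟩)
    have h2 := hD _ ⟨lam, rfl⟩ (⟨f, hf⟩ : DomS)
    have h3 : pull 1 nu (pull lam 0 ⟨f, hf⟩) = pull lam nu (⟨f, hf⟩ : DomS) := by
      have := congrArg (fun A : Module.End ℝ DomS => A ⟨f, hf⟩) (pull_mul 1 lam nu 0)
      simpa using this
    dsimp only at h1 h2
    rw [h3, h2] at h1
    exact h1
  · intro b hb
    obtain ⟨s, hs, hm⟩ := exists_maj (f := dirS) hb
    exact oracle_of_maj hm hs.le (lt_of_le_of_lt (NN_nonneg _) hb)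

end Pool.Agent.W77.AK
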