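import Pool.Agent.W904.AK.Cond

/-!
# The world functional for the sums-differences problem: definitions

A `Fam` is a random line `X + t D` whose direction `D` determines it.  `World bs Lam` says that
`Lam` is a positive linear functional on the functions of families dominated by the entropy of the
direction, exactly invariant under affine changes of the heights, with `Lam (H D) = bs`,
`Lam (H (X + t D)) ≤ 1` for every rational height `t`, and that the weighted sums-differences
inequality holds with every constant larger than `bs`.
-/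

set_option autoImplicit false

open Finset

namespace Pool.Agent.W77.AK

open Pool.Agent.W904.AK

/-- A family: a random line with directions determining it. -/
structure Fam : Type 1 where
  /-- the sample space -/
  Ω : Type
  [ft : Fintype Ω]
  /-- the space of values -/
  W : Type
  [ag : AddCommGroup W]
  [md : Module ℚ W]
  /-- the law -/
  p : Ω → ℝ
  /-- the point at height zero -/
  X : Ω → W
  /-- the direction -/
  D : Ω → W
  law : IsLaw p
  det : Det p D X

attribute [instance] Fam.ft Fam.ag Fam.md

/-- The point at height `t`. -/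
def Fam.pt (F : Fam) (t : ℚ) : F.Ω → F.W := fun x => F.X x + t • F.D x

/-- The affine change of heights `t ↦ nu + lam t`. -/
def Fam.aff (F : Fam) (lam : ℚˣ) (nu : ℚ) : Fam where
  Ω := F.Ω
  W := F.W
  p := F.p
  X := fun x => F.X x + nu • F.D x
  D := fun x => (lam : ℚ) • F.D x
  law := F.law
  det := by
    intro x y hx hy h
    have h1 : F.D x = F.D y := by
      have h2 := congrArg (fun v => ((lam⁻¹ : ℚˣ) : ℚ) • v) h
      simpa [smul_smul] using h2
    dsimp only
    rw [F.det x y hx hy h1, h1]

/-- Functions of families dominated by the entropy of the direction. -/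
def Dom (f : Fam → ℝ) : Prop := ∃ C : ℝ, ∀ F : Fam, |f F| ≤ C * H F.p F.D

/-- The world functional. -/
structure World (bs : ℝ) (Lam : (Fam → ℝ) → ℝ) : Prop where
  add : ∀ f g : Fam → ℝ, Dom f → Dom g → Lam (fun F => f F + g F) = Lam f + Lam g
  smul : ∀ (c : ℝ) (f : Fam → ℝ), Dom f → Lam (fun F => c * f F) = c * Lam f
  mono : ∀ f g : Fam → ℝ, Dom f → Dom g → (∀ F, f F ≤ g F) → Lam f ≤ Lam g
  dir : Lam (fun F => H F.p F.D) = bs
  pt : ∀ t : ℚ, Lam (fun F => H F.p (F.pt t)) ≤ 1
  inv : ∀ (f : Fam → ℝ) (lam : ℚˣ) (nu : ℚ), Dom f → Lam (fun F => f (F.aff lam nu)) = Lam f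
  oracle : ∀ b : ℝ, bs < b → ∃ (T : Finset ℚ) (w : ℚ → ℝ), Oracle b T w

/-- Existence of the world functional (proved in `World.lean`). -/
def S_WORLD : Prop := ∃ (bs : ℝ) (Lam : (Fam → ℝ) → ℝ), World bs Lam

end Pool.Agent.W77.AK
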